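import Pool.Agent.helper90.DH.SpecI

set_option autoImplicit false

open Filter Topology MeasureTheory
open scoped commutatorElement

namespace Pool.Agent.helper90.DH

open Pool.Agent.helper64.D2

/-- Mean value inequality on the line. -/
theorem DGS_mvt (f : ℝ → ℝ) (K : ℝ) (hf : Differentiable ℝ f) (hK : ∀ x, |deriv f x| ≤ K) (x y : ℝ) :
    |f x - f y| ≤ K * |x - y| := by
  have := Convex.norm_image_sub_le_of_norm_deriv_le (𝕜 := ℝ) (f := f) (C := K) (s := Set.univ) (x := y) (y := x)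
    (fun z _ => hf z) (fun z _ => by rw [Real.norm_eq_abs]; exact hK z) convex_univ (Set.mem_univ _) (Set.mem_univ _)
  simpa [Real.norm_eq_abs] using this

theorem DGS_lip (g : DD) (a : ℝ) (hS : Sz g a) (x y : ℝ) : |ev g x - ev g y| ≤ (1 + a) * |x - y| := by
  have hcd : ContDiff ℝ 2 (ev g) := ev_contDiff g
  have hd1 : Differentiable ℝ (ev g) := hcd.differentiable (by norm_num)
  have hcd' : ContDiff ℝ 1 (deriv (ev g)) := by
    have h2 : ContDiff ℝ (1 + 1) (ev g) := by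
      have : (1 + 1 : WithTop ℕ∞) = 2 := by norm_num
      rw [this]; exact hcd
    exact (contDiff_succ_iff_deriv.1 h2).2.2
  have hd2 : Differentiable ℝ (deriv (ev g)) := hcd'.differentiable (by norm_num)
  have hlip : ∀ x y, |deriv (ev g) x - deriv (ev g) y| ≤ a * |x - y| := fun x y =>
    DGS_mvt (deriv (ev g)) a hd2 (fun z => hS z) x y
  have ha0 : 0 ≤ a := le_trans (abs_nonneg _) (hS 0)
  have hout : ∀ x, x < 0 ∨ 1 < x → deriv (ev g) x = 1 := by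
    intro x hx
    have hev : ev g =ᶠ[𝓝 x] (fun y => y) := by
      rcases hx with h | h
      · filter_upwards [Iio_mem_nhds h] with y hy
        exact ev_out g y (fun hy' => absurd hy'.1 (not_lt.2 (le_of_lt hy)))
      · filter_upwards [Ioi_mem_nhds h] with y hy
        exact ev_out g y (fun hy' => absurd hy'.2 (not_lt.2 (le_of_lt hy)))
    rw [hev.deriv_eq]
    simp
  have hsl : ∀ x, |deriv (ev g) x - 1| ≤ a := by
    intro x
    by_cases hx : x < 0 ∨ 1 < x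
    · rw [hout x hx]; simpa using ha0
    · push Not at hx
      apply le_of_forall_pos_le_add
      intro ε hε
      have h1 : deriv (ev g) (-(ε / (a + 1))) = 1 := hout _ (Or.inl (by
        have : 0 < ε / (a + 1) := by positivity
        linarith))
      have h2 := hlip x (-(ε / (a + 1)))
      rw [h1] at h2
      have hpos : 0 < ε / (a + 1) := by positivity
      have h3 : |x - -(ε / (a + 1))| = x + ε / (a + 1) := by
        rw [abs_of_nonneg] <;> linarith [hx.1]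
      rw [h3] at h2
      have h4 : a * (ε / (a + 1)) ≤ ε := by
        rw [← mul_div_assoc, div_le_iff₀ (by linarith)]
        nlinarith
      have h5 : a * x ≤ a := by nlinarith [hx.2]
      linarith [mul_add a x (ε / (a + 1))]
  refine DGS_mvt (ev g) (1 + a) hd1 (fun z => ?_) x y
  have h1 := abs_le.1 (hsl z)
  rw [abs_le]
  constructor <;> linarith [h1.1, h1.2]

theorem DGS_one (a : ℝ) (ha : 0 ≤ a) : Sz 1 a := by
  intro x
  have h : ev (1 : DD) = fun x => x := by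
    funext x
    exact ev_one x
  have h2 : d2 (ev (1 : DD)) x = 0 := by
    unfold d2
    rw [h]
    have e : deriv (fun x : ℝ => x) = fun _ => (1 : ℝ) := by
      funext x
      exact deriv_id x
    rw [e]
    simp
  rw [h2]
  simpa using ha

/-- `bu t = amp t 0 / 4`. -/
theorem DGS_bu (w0 s0 t : ℕ) : bu w0 s0 t = amp w0 s0 t 0 / 4 := by
  unfold bu amp
  split_ifs <;> simp

theorem DGS_amp (w0 s0 t φ : ℕ) : amp w0 s0 t 0 ≤ amp w0 s0 t φ := by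
  unfold amp
  split_ifs
  · exact le_rfl
  · simp

theorem DGS_amp0 (w0 s0 t : ℕ) : sj s0 t - w0 ≤ amp w0 s0 t 0 := by
  unfold amp
  split_ifs with h
  · subst h
    simp [sj]
  · simp

theorem DGS (hSJM : SJM_stmt) (hWDB : WDB_stmt) (hQRU : QRU_stmt) (hBDD : BDD_stmt) (hDST : DST_stmt)
    (hDIF : Pool.Agent.helper64.D2.DIF_stmt) : DGS_stmt := by
  intro β hβ
  obtain ⟨KW, hKW1, hW⟩ := hWDB β hβ
  obtain ⟨KB1, hKB1, hB⟩ := hBDD
  obtain ⟨KD, hKD1, hD⟩ := hDST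
  obtain ⟨C, hC⟩ := exists_nat_ge (4 * KD * (2 * KW + 3) + 4 * KB1 + 100)
  have hKDW : 0 ≤ KD * (2 * KW + 3) := by positivity
  have hC100 : (100 : ℝ) ≤ C := by nlinarith
  have hCKB : 4 * KB1 ≤ (C : ℝ) := by nlinarith
  have hCKD : 4 * (KD * (2 * KW + 3)) ≤ (C : ℝ) := by nlinarith
  have hCKD' : 2 * KD ≤ (C : ℝ) := by nlinarith
  have hCKW : KW ≤ (C : ℝ) := by nlinarith
  refine ⟨C, ?_⟩
  intro KB th δ m0 w0 ρ hBAT hNB hδ t Y G Q R ε L γ Lam hQ hR hFL hε hγ hL hLam hCδ hγ2 hnum hG hSP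
  obtain ⟨hq1, hCq, hNq, hNs⟩ := hNB
  have hCn : 100 ≤ C := by exact_mod_cast hC100
  -- names
  obtain ⟨s0, hs0⟩ : ∃ s0 : ℕ, s0 = ρ ^ 2 := ⟨_, rfl⟩
  obtain ⟨q, hqd⟩ : ∃ q : ℕ, q = ρ ^ 4 := ⟨_, rfl⟩
  have hqr : ((ρ : ℝ) ^ 4) = (q : ℝ) := by rw [hqd]; push_cast; rfl
  have hρ1 : 1 ≤ ρ := by
    rcases Nat.eq_zero_or_pos ρ with h | h
    · subst h; simp at hq1
    · exact h
  have hρr : (1 : ℝ) ≤ ρ := by exact_mod_cast hρ1
  have hρq : ρ ≤ q := by rw [hqd]; exact Nat.le_self_pow (by norm_num) ρ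
  have hρqr : (ρ : ℝ) ≤ q := by exact_mod_cast hρq
  have hρ8 : (ρ : ℝ) ^ 8 = (q : ℝ) ^ 2 := by rw [← hqr]; ring
  unfold BATc at hBAT
  unfold BPR
  rw [← hs0] at hBAT hNq hNs hγ2 hnum hSP ⊢
  rw [← hqd] at hBAT hq1 hCq hNq hQ hR hFL hG hSP ⊢
  rw [hρ8] at hFL
  have hqr1 : (1 : ℝ) ≤ q := by exact_mod_cast hq1
  have hq0 : (0 : ℝ) < q := by linarith
  obtain ⟨z, hz⟩ : ∃ z : ℕ, z = 3 * w0 * 2 ^ w0 := ⟨_, rfl⟩
  rw [← hz] at hNs
  have hs1000 : 1000 ≤ s0 := by omega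
  have hw0 : 10000 * w0 + 1000 * C ≤ s0 := by omega
  obtain ⟨J, hJ⟩ : ∃ J : ℕ, J = sj s0 t := ⟨_, rfl⟩
  have hJs : s0 ≤ J := by rw [hJ]; exact (hSJM s0 hs1000).1 t
  obtain ⟨A, hA⟩ : ∃ A : ℕ, A = amp w0 s0 t 0 := ⟨_, rfl⟩
  have hAJ : J - w0 ≤ A := by rw [hJ, hA]; exact DGS_amp0 w0 s0 t
  have hbu : bu w0 s0 t = A / 4 := by rw [hA]; exact DGS_bu w0 s0 t
  have hAphi : ∀ φ, A ≤ amp w0 s0 t φ := fun φ => by rw [hA]; exact DGS_amp w0 s0 t φ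
  rw [← hA, ← hJ] at hnum
  rw [← hJ]
  -- powers of two
  have hP1 : (C : ℝ) * q ^ 10 ≤ 2 ^ (s0 / 1000) := by
    have h1 : (C : ℝ) * q ^ 10 * 2 ^ (10 * w0) ≤ 2 ^ (s0 / 1000) := by exact_mod_cast hNq
    have h2 : (1 : ℝ) ≤ 2 ^ (10 * w0) := one_le_pow₀ (by norm_num)
    have h3 : 0 ≤ (C : ℝ) * q ^ 10 := by positivity
    nlinarith
  have hpw : ∀ a b : ℕ, a ≤ b → (2 : ℝ) ^ a ≤ 2 ^ b := fun a b h => pow_le_pow_right₀ (by norm_num) h
  have hCq10 : (C : ℝ) ≤ C * q ^ 10 := by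
    have : (1 : ℝ) ≤ (q : ℝ) ^ 10 := one_le_pow₀ hqr1
    nlinarith
  -- q γ
  have hqg : ∀ g' : ℝ, 0 ≤ g' → g' ≤ 3 / 2 ^ (s0 / 16) → q * g' ≤ 1 / ρ := by
    intro g' hg0 hg
    have h1 : (C : ℝ) * q ^ 10 ≤ 2 ^ (s0 / 16) := hP1.trans (hpw _ _ (by omega))
    have h2 : (q : ℝ) * g' ≤ q * (3 / 2 ^ (s0 / 16)) := mul_le_mul_of_nonneg_left hg hq0.le
    refine h2.trans ?_
    rw [← mul_div_assoc, div_le_div_iff₀ (by positivity) (by linarith)]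
    have h3 : (q : ℝ) ^ 2 ≤ q ^ 10 := pow_le_pow_right₀ hqr1 (by norm_num)
    have h4 : (q : ℝ) * 3 * ρ ≤ 3 * q ^ 2 := by nlinarith
    have h5 : 3 * (q : ℝ) ^ 2 ≤ C * q ^ 10 := by
      have h6 : 3 * (q : ℝ) ^ 2 ≤ 3 * q ^ 10 := by linarith
      have h7 : 0 ≤ (q : ℝ) ^ 10 := by positivity
      nlinarith
    linarith
  have h16 : (0 : ℝ) < 1 / 2 ^ (s0 / 16) := by positivity
  have hqγ : q * γ ≤ 1 / ρ := hqg γ hγ (hγ2.trans (by
    rw [div_le_div_iff_of_pos_right (by positivity)]; norm_num))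
  have hJ16 : (1 : ℝ) / 2 ^ (J / 16) ≤ 1 / 2 ^ (s0 / 16) :=
    one_div_le_one_div_of_le (by positivity) (hpw _ _ (by omega))
  have hγ' : γ + 1 / 2 ^ (J / 16) ≤ 3 / 2 ^ (s0 / 16) := by
    have e : (3 : ℝ) / 2 ^ (s0 / 16) = 2 / 2 ^ (s0 / 16) + 1 / 2 ^ (s0 / 16) := by ring
    rw [e]
    linarith
  have hγ'0 : 0 ≤ γ + 1 / 2 ^ (J / 16) := by positivity
  have hqγ' : q * (γ + 1 / 2 ^ (J / 16)) ≤ 1 / ρ := hqg _ hγ'0 hγ'
  have hρinv : (0 : ℝ) < 1 / ρ := by positivity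
  have hδ0 : 0 < δ := lt_of_lt_of_le (by positivity) hCδ
  -- BDD sizes
  have hsz : ∀ g' : ℝ, 0 ≤ g' → q * g' ≤ 1 / ρ → KB1 * (ε + q * g') ≤ δ ∧ KB1 * (ε + q * g') ≤ 1 := by
    intro g' hg0 hg
    have h1 : KB1 * (ε + q * g') ≤ KB1 * (ε + 1 / ρ) := mul_le_mul_of_nonneg_left (by linarith) (by linarith)
    have h2 : 4 * (KB1 * (ε + 1 / ρ)) ≤ C * (ε + 1 / ρ) := by
      have h3 : 0 ≤ ε + 1 / (ρ : ℝ) := by positivity
      nlinarith
    have h4 : 0 ≤ KB1 * (ε + 1 / (ρ : ℝ)) := by positivity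
    constructor <;> linarith
  have hBd : ∀ (G1 : ℕ → DD) (R1 : ℕ → DD) (g' : ℝ), 0 ≤ g' → q * g' ≤ 1 / ρ → (∀ i < q, Sz (G1 i) g') → IsR q G1 Q R1 →
      ∀ i < q, Sz ((Q (i + 1))⁻¹) (1 / 1000) ∧ Sz (G1 i * R1 (i + 1)) (1 / 1000) ∧ Sz (Cm G1 Q R1 i) δ := by
    intro G1 R1 g' hg0 hg hS1 hR1 i hi
    obtain ⟨h1, h2⟩ := hsz g' hg0 hg
    obtain ⟨Q2, R2, hQ2, hR2, _, h3⟩ := hB q Y G1 ε (1 / (q : ℝ) ^ 2) L g' hq1 hFL hε hg0 h2 hS1
    obtain ⟨h4, h5, h6⟩ := h3 i hi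
    have h7 := hQRU q Y G1 Q Q2 R1 R2 hQ hQ2 hR1 hR2 (i + 1) hi
    rw [← h7.1] at h4
    rw [← h7.2] at h5
    have h8 : Cm G1 Q2 R2 i = Cm G1 Q R1 i := by
      unfold Cm
      rw [h7.1, h7.2]
    rw [h8] at h6
    refine ⟨fun x => (h4 x).trans ?_, fun x => (h5 x).trans (by linarith), fun x => (h6 x).trans h1⟩
    have h9 : KB1 * ε ≤ KB1 * (ε + q * g') := mul_le_mul_of_nonneg_left (by nlinarith) (by linarith)
    linarith
  have hSG : ∀ i < q, Sz (G i) γ := fun i hi => (hG i hi).1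
  have hPE := hBd G R γ hγ hqγ hSG hR
  -- the maps P, E
  obtain ⟨P, hP⟩ : ∃ P : ℕ → DD, P = fun i => if i < q then (Q (i + 1))⁻¹ else 1 := ⟨_, rfl⟩
  obtain ⟨E, hE⟩ : ∃ E : ℕ → DD, E = fun i => if i < q then G i * R (i + 1) else 1 := ⟨_, rfl⟩
  have hPi : ∀ i < q, P i = (Q (i + 1))⁻¹ := fun i hi => by rw [hP]; simp [hi]
  have hEi : ∀ i < q, E i = G i * R (i + 1) := fun i hi => by rw [hE]; simp [hi]
  have hPo : ∀ i, ¬ i < q → P i = 1 := fun i hi => by rw [hP]; simp [hi]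
  have hEo : ∀ i, ¬ i < q → E i = 1 := fun i hi => by rw [hE]; simp [hi]
  have hsizes : ∀ i, Sz (P i) (1 / 1000) ∧ Sz (E i) (1 / 1000) := by
    intro i
    by_cases hi : i < q
    · rw [hPi i hi, hEi i hi]
      exact ⟨(hPE i hi).1, (hPE i hi).2.1⟩
    · rw [hPo i hi, hEo i hi]
      exact ⟨DGS_one _ (by norm_num), DGS_one _ (by norm_num)⟩
  have hspr : ∀ r k : ℕ, r ≤ bu w0 s0 t → 2 * k * ρ ^ 3 ≤ r → SPR q (fun i => P i * E i) r k th 4 := by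
    intro r k h1 h2 p Ed hp hE1 hE2
    refine hSP r k h1 h2 p Ed hp ?_ hE2
    intro e he
    obtain ⟨h3, h4, h5, h6⟩ := hE1 e he
    refine ⟨h3, h4, h5, ?_⟩
    have h7 : (fun i => P i * E i) e.1 = Cm G Q R e.1 := by
      show P e.1 * E e.1 = _
      rw [hPi _ h3, hEi _ h3]
      rfl
    rw [h7] at h6
    exact h6
  obtain ⟨ω, hω, hconc⟩ := hBAT t P E hsizes hspr
  -- the shifts
  obtain ⟨W, hWd⟩ : ∃ W : ℕ → ℝ → ℝ, W = fun i => Wd β (bu w0 s0 t) (2 ^ sj s0 (t + 1)) (1 / 2 ^ amp w0 s0 t (i % 2 ^ w0)) (ω i) := ⟨_, rfl⟩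
  have hu10 : 10 ≤ bu w0 s0 t := by rw [hbu]; omega
  have hWi := fun i : ℕ => hW (bu w0 s0 t) (2 ^ sj s0 (t + 1)) (1 / 2 ^ amp w0 s0 t (i % 2 ^ w0)) (ω i) hu10 Nat.one_le_two_pow
    (by positivity) (hω i)
  have hti : ∀ i : ℕ, (1 : ℝ) / 2 ^ amp w0 s0 t (i % 2 ^ w0) ≤ 1 / 2 ^ A := fun i =>
    one_div_le_one_div_of_le (by positivity) (hpw _ _ (hAphi _))
  have hA4 : J / 16 + s0 / 100 ≤ A / 4 := by omega
  have hKWt : KW / 2 ^ (A / 4) ≤ 1 := by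
    rw [div_le_one (by positivity)]
    exact (hCKW.trans hCq10).trans (hP1.trans (hpw _ _ (by omega)))
  -- `τ 2^(k u) ≤ 1/2^(A/4)` for `k ≤ 3`
  have htu : ∀ k ≤ 3, ∀ i : ℕ, KW * (1 / 2 ^ amp w0 s0 t (i % 2 ^ w0)) * 2 ^ (k * bu w0 s0 t) ≤ KW / 2 ^ (A / 4) := by
    intro k hk i
    have h1 : KW * (1 / 2 ^ amp w0 s0 t (i % 2 ^ w0)) * 2 ^ (k * bu w0 s0 t) ≤ KW * (1 / 2 ^ A) * 2 ^ (3 * bu w0 s0 t) := by
      apply mul_le_mul
      · exact mul_le_mul_of_nonneg_left (hti i) (by linarith)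
      · exact hpw _ _ (Nat.mul_le_mul_right _ hk)
      · positivity
      · positivity
    refine h1.trans ?_
    rw [hbu, mul_one_div, div_mul_eq_mul_div, div_le_div_iff₀ (by positivity) (by positivity), mul_assoc]
    apply mul_le_mul_of_nonneg_left _ (by linarith)
    rw [← pow_add]
    exact hpw _ _ (by omega)
  have hcd : ∀ i, ContDiff ℝ 3 (W i) ∧ (∀ x, x ∉ Set.Icc (1 / 8 : ℝ) (7 / 8) → W i x = 0) := by
    intro i
    rw [hWd]
    exact ⟨(hWi i).1, (hWi i).2.1⟩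
  have hW0 : ∀ i x, |W i x| ≤ 3 * (1 / 2 ^ amp w0 s0 t (i % 2 ^ w0)) := by
    intro i x
    rw [hWd]
    exact ((hWi i).2.2 x).1
  have hW1 : ∀ i x, |deriv (W i) x| ≤ KW / 2 ^ (A / 4) := by
    intro i x
    rw [hWd]
    refine (((hWi i).2.2 x).2.1).trans ?_
    have := htu 1 (by norm_num) i
    rwa [one_mul] at this
  have hW2 : ∀ i x, |d2 (W i) x| ≤ KW / 2 ^ (A / 4) := by
    intro i x
    rw [hWd]
    exact (((hWi i).2.2 x).2.2.1).trans (htu 2 (by norm_num) i)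
  have hW3 : ∀ i x, |deriv (d2 (W i)) x| ≤ 1 := by
    intro i x
    rw [hWd]
    exact (((hWi i).2.2 x).2.2.2).trans ((htu 3 le_rfl i).trans hKWt)
  have hKW4 : (KW : ℝ) / 2 ^ (A / 4) ≤ KW / 2 ^ (J / 16 + s0 / 100) :=
    div_le_div_of_nonneg_left (by linarith) (by positivity) (hpw _ _ hA4)
  have hLL : 3 * (1 / 2 ^ A) * (Lam + L) ≤ 3 / 2 ^ (J / 16 + s0 / 100) := by
    rw [mul_one_div, div_mul_eq_mul_div, div_le_div_iff₀ (by positivity) (by positivity)]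
    nlinarith
  have htot : KW / 2 ^ (A / 4) + KW / 2 ^ (A / 4) + 3 * (1 / 2 ^ A) * (Lam + L) ≤ (2 * KW + 3) / 2 ^ (J / 16 + s0 / 100) := by
    have e : (2 * KW + 3) / 2 ^ (J / 16 + s0 / 100) = KW / 2 ^ (J / 16 + s0 / 100) + KW / 2 ^ (J / 16 + s0 / 100) + 3 / 2 ^ (J / 16 + s0 / 100) := by ring
    rw [e]
    linarith
  have htot0 : 0 ≤ KW / 2 ^ (A / 4) + KW / 2 ^ (A / 4) + 3 * (1 / 2 ^ A) * (Lam + L) := by
    have : 0 ≤ Lam + L := by linarith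
    positivity
  have hKq4 : KD * q ^ 4 * (KW / 2 ^ (A / 4) + KW / 2 ^ (A / 4) + 3 * (1 / 2 ^ A) * (Lam + L)) ≤ 1 / 2 ^ (J / 16) := by
    have h1 : KD * q ^ 4 * (KW / 2 ^ (A / 4) + KW / 2 ^ (A / 4) + 3 * (1 / 2 ^ A) * (Lam + L)) ≤ KD * q ^ 4 * ((2 * KW + 3) / 2 ^ (J / 16 + s0 / 100)) :=
      mul_le_mul_of_nonneg_left htot (by positivity)
    refine h1.trans ?_
    rw [← mul_div_assoc, div_le_div_iff₀ (by positivity) (by positivity), one_mul, pow_add]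
    have h2 : KD * (q : ℝ) ^ 4 * (2 * KW + 3) ≤ 2 ^ (s0 / 100) := by
      have h3 : KD * (q : ℝ) ^ 4 * (2 * KW + 3) = (KD * (2 * KW + 3)) * q ^ 4 := by ring
      have h4 : (q : ℝ) ^ 4 ≤ q ^ 10 := pow_le_pow_right₀ hqr1 (by norm_num)
      have h5 : (KD * (2 * KW + 3)) * (q : ℝ) ^ 4 ≤ C * q ^ 10 := mul_le_mul (by linarith) h4 (by positivity) (by positivity)
      rw [h3]
      exact h5.trans (hP1.trans (hpw _ _ (by omega)))
    calc KD * (q : ℝ) ^ 4 * (2 * KW + 3) * 2 ^ (J / 16) ≤ 2 ^ (s0 / 100) * 2 ^ (J / 16) :=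
          mul_le_mul_of_nonneg_right h2 (by positivity)
      _ = 2 ^ (J / 16) * 2 ^ (s0 / 100) := mul_comm _ _
  have hKq3 : KD * q ^ 3 * (KW / 2 ^ (A / 4) + KW / 2 ^ (A / 4) + 3 * (1 / 2 ^ A) * (Lam + L)) ≤ 1 / 2 ^ (J / 16) := by
    refine le_trans ?_ hKq4
    apply mul_le_mul_of_nonneg_right _ htot0
    apply mul_le_mul_of_nonneg_left _ (by linarith)
    exact pow_le_pow_right₀ hqr1 (by norm_num)
  have hJ1 : (1 : ℝ) / 2 ^ (J / 16) ≤ 1 := by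
    rw [div_le_one (by positivity)]
    exact one_le_pow₀ (by norm_num)
  have hqd1 : (q : ℝ) * (1 / (q : ℝ) ^ 2) ≤ 1 / ρ := by
    have e : (q : ℝ) * (1 / (q : ℝ) ^ 2) = 1 / q := by field_simp
    rw [e]
    exact one_div_le_one_div_of_le (by linarith) hρqr
  have hDcond : KD * (ε + q * γ + q * (1 / (q : ℝ) ^ 2)) ≤ 1 := by
    have h1 : KD * (ε + q * γ + q * (1 / (q : ℝ) ^ 2)) ≤ KD * (2 * (ε + 1 / ρ)) :=
      mul_le_mul_of_nonneg_left (by linarith) (by linarith)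
    have h2 : KD * (2 * (ε + 1 / (ρ : ℝ))) = (2 * KD) * (ε + 1 / ρ) := by ring
    have h3 : (2 * KD) * (ε + 1 / (ρ : ℝ)) ≤ C * (ε + 1 / ρ) := mul_le_mul_of_nonneg_right hCKD' (by positivity)
    linarith
  obtain ⟨G', R', hR', hGR, hSL⟩ := hD q Y W G Q R ε (1 / (q : ℝ) ^ 2) L γ Lam (3 * (1 / 2 ^ A)) (KW / 2 ^ (A / 4)) (KW / 2 ^ (A / 4))
    hq1 hFL hε hγ (by positivity) hL hLam (by positivity) (by positivity) (by positivity) hDcond (hKq4.trans hJ1) hG hQ hR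
    (fun i _ => ⟨(hcd i).1, (hcd i).2, fun x => ⟨(hW0 i x).trans (by have := hti i; linarith), hW1 i x, hW2 i x, hW3 i x⟩⟩)
  have hSG' : ∀ i < q, Sz (G' i) (γ + 1 / 2 ^ (J / 16)) := fun i hi x => ((hSL i hi).1 x).trans (by linarith)
  have hPE' := hBd G' R' _ hγ'0 hqγ' hSG' hR'
  -- labels `i ≥ q`
  have hex : ∀ i, ∃ g : DD, Rep g (W i) := by
    intro i
    refine hDIF (W i) ((hcd i).1.of_le (by norm_num)) ?_ ?_
    · intro x hx
      refine (hcd i).2 x (fun hx' => hx ⟨?_, ?_⟩)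
      · linarith [hx'.1]
      · linarith [hx'.2]
    · intro x
      refine (hW1 i x).trans ?_
      rw [div_le_iff₀ (by positivity)]
      have h1 : (C : ℝ) ≤ 2 ^ (A / 4) := hCq10.trans (hP1.trans (hpw _ _ (by omega)))
      nlinarith
  choose g hg using hex
  obtain ⟨c, hc⟩ : ∃ c : ℕ → DD, c = fun i => if i < q then Cm G' Q R' i else g i := ⟨_, rfl⟩
  have hci : ∀ i < q, c i = Cm G' Q R' i := fun i hi => by rw [hc]; simp [hi]
  have hco : ∀ i, ¬ i < q → c i = g i := fun i hi => by rw [hc]; simp [hi]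
  have hcform : ∀ i x, ev (c i) x = ev (P i) (ev (E i) x + W i x) := by
    intro i x
    by_cases hi : i < q
    · rw [hci i hi, hPi i hi, hEi i hi, ← hGR i hi x]
      rfl
    · rw [hco i hi, hPo i hi, hEo i hi, hg i x]
      rfl
  refine ⟨c, G', R', hR', hci, ?_, ?_⟩
  · have h := hconc c (fun i x => by rw [hcform i x, hWd])
    rw [← hJ] at h
    exact h
  · intro i hi
    refine ⟨hSG' i hi, ?_, ?_, ?_⟩
    · intro x y
      refine ((hSL i hi).2 x y).trans ?_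
      apply mul_le_mul_of_nonneg_right _ (abs_nonneg _)
      rw [hqr]
      apply mul_le_mul_of_nonneg_right _ (by linarith)
      apply mul_le_mul_of_nonneg_right _ (by positivity)
      linarith
    · rw [hci i hi]
      exact (hPE' i hi).2.2
    · intro x
      rw [hcform i x, hPi i hi, hEi i hi]
      have h1 : ev (Cm G Q R i) x = ev ((Q (i + 1))⁻¹) (ev (G i * R (i + 1)) x) := rfl
      rw [h1]
      refine (DGS_lip _ _ (hPE i hi).1 _ _).trans ?_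
      rw [add_sub_cancel_left]
      have h2 := hW0 i x
      have h3 : (0 : ℝ) < 1 / 2 ^ amp w0 s0 t (i % 2 ^ w0) := by positivity
      have h4 : (13 / 4 : ℝ) / 2 ^ amp w0 s0 t (i % 2 ^ w0) = (13 / 4) * (1 / 2 ^ amp w0 s0 t (i % 2 ^ w0)) := by ring
      rw [h4]
      nlinarith

end Pool.Agent.helper90.DH
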